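import Pool.Agent.Helper188_Cone.CircleLike2

/-! The cone question has a positive answer for inverse limits of circles. -/

namespace Pool.Agent.Results.MP_9e71a3_gt.CircleLike

theorem result : ∀ (X : Type) [TopologicalSpace X] [TopologicalSpace.MetrizableSpace X]
    [CompactSpace X] (f : ℕ → C(Circle, Circle)),
    Nonempty (X ≃ₜ {x : ℕ → Circle // ∀ n, x n = f n (x (n + 1))}) →
    (∃ g : X × unitInterval → EuclideanSpace ℝ (Fin 3), Continuous g ∧
      ∀ p q : X × unitInterval, g p = g q ↔ (p = q ∨ (p.2 = 1 ∧ q.2 = 1))) →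
    ∃ e : X → Metric.sphere (0 : EuclideanSpace ℝ (Fin 3)) 1, Topology.IsEmbedding e := by
  rintro X _ _ _ f ⟨E⟩ ⟨g, hg, hinj⟩
  exact Pool.Agent.Helper188_Cone.circle_like_main f E g hg hinj

end Pool.Agent.Results.MP_9e71a3_gt.CircleLike
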