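import Pool.Agent.Helper188_Cone.Deleted

/-! If the cone over a compact metrizable space embeds in three-space, then either the space is a
continuous image of the two-sphere, or there is a continuous complex valued function of two
variables on it which is antisymmetric and vanishes exactly on the diagonal. -/

namespace Pool.Agent.Results.MP_9e71a3_gt.DeletedProduct

theorem result : ∀ (X : Type) [TopologicalSpace X] [TopologicalSpace.MetrizableSpace X]
    [CompactSpace X],
    (∃ g : X × unitInterval → EuclideanSpace ℝ (Fin 3), Continuous g ∧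
      ∀ p q : X × unitInterval, g p = g q ↔ (p = q ∨ (p.2 = 1 ∧ q.2 = 1))) →
    (∃ s : Metric.sphere (0 : EuclideanSpace ℝ (Fin 3)) 1 → X,
      Continuous s ∧ Function.Surjective s) ∨
    ∃ F : X × X → ℂ, Continuous F ∧ (∀ x y, F (x, y) = 0 ↔ x = y) ∧
      ∀ x y, F (y, x) = - F (x, y) := by
  intro X _ _ _ h
  obtain ⟨g, hg, hinj⟩ := h
  exact Pool.Agent.Helper188_Cone.deleted_product g hg hinj

end Pool.Agent.Results.MP_9e71a3_gt.DeletedProduct
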