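import Pool.Agent.Helper188_Cone.Bruschlinsky
import Pool.Agent.Helper188_Cone.FreeSub

/-! If the cone over a compact metrizable space embeds in three-space, then the group of homotopy
classes of maps of the space to the circle (its first Cech cohomology group) is free abelian. -/

namespace Pool.Agent.Results.MP_9e71a3_gt.FirstCohomologyFree

theorem result : ∀ (X : Type) [TopologicalSpace X] [TopologicalSpace.MetrizableSpace X]
    [CompactSpace X],
    (∃ g : X × unitInterval → EuclideanSpace ℝ (Fin 3), Continuous g ∧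
      ∀ p q : X × unitInterval, g p = g q ↔ (p = q ∨ (p.2 = 1 ∧ q.2 = 1))) →
    ∃ N : Subgroup C(X, Circle),
      (∀ f : C(X, Circle), f ∈ N ↔ ∃ h : C(X, ℝ), ∀ x, f x = Circle.exp (h x)) ∧
      Module.Free ℤ (Additive (C(X, Circle) ⧸ N)) := by
  intro X _ _ _ h
  obtain ⟨g, hg, hinj⟩ := h
  obtain ⟨T, hT⟩ := Pool.Agent.Helper188_Cone.cone_hom g hg hinj
  exact ⟨T.ker, fun f => hT f, Pool.Agent.Helper188_Cone.free_quotient T T.ker (fun f => Iff.rfl)⟩

end Pool.Agent.Results.MP_9e71a3_gt.FirstCohomologyFree
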