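import Pool.Agent.Helper188_Cone.FlowThm

/-! A Poincare-Bendixson theorem for spaces whose cone embeds in three-space. -/

namespace Pool.Agent.Results.MP_9e71a3_gt.SuspensionFlow

theorem result : ∀ (X : Type) [TopologicalSpace X] [TopologicalSpace.MetrizableSpace X]
    [CompactSpace X] [Nonempty X] (φ : Flow ℝ X) (f : X → UnitAddCircle), Continuous f →
    (∀ (t : ℝ) (x : X), f (φ t x) = f x + (t : UnitAddCircle)) →
    (∃ g : X × unitInterval → EuclideanSpace ℝ (Fin 3), Continuous g ∧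
      ∀ p q : X × unitInterval, g p = g q ↔ (p = q ∨ (p.2 = 1 ∧ q.2 = 1))) →
    ∃ x : X, ∃ T : ℝ, 0 < T ∧ φ T x = x := by
  rintro X _ _ _ _ φ f hf hflow ⟨g, hg, hinj⟩
  letI := TopologicalSpace.metrizableSpaceMetric X
  let F : C(X, Circle) := ⟨fun x => AddCircle.toCircle (f x),
    AddCircle.continuous_toCircle.comp hf⟩
  have hF : ∀ (t : ℝ) (x : X), F (φ t x) = Circle.exp (2 * Real.pi * t) * F x := by
    intro t x
    show AddCircle.toCircle (f (φ t x)) = _ * AddCircle.toCircle (f x)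
    rw [hflow, AddCircle.toCircle_add, mul_comm, AddCircle.toCircle_apply_mk, div_one]
  obtain ⟨x, T, hT, hx⟩ := Pool.Agent.Helper188_Cone.flow_main φ F hF g hg hinj
  exact ⟨x, T, hT, hx⟩

end Pool.Agent.Results.MP_9e71a3_gt.SuspensionFlow
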